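import Mathlib

set_option autoImplicit false
set_option linter.unusedSimpArgs false
set_option linter.unusedVariables false

namespace Pool.Agent.Results.MP_bb7684_lc.Tight

open List

abbrev Tr (Q σ : Type) (d : ℕ) := Q × σ × (Fin d → ℤ) × Q

structure VASS (Q σ : Type) (d : ℕ) where
  T : Set (Tr Q σ d)
  fin : T.Finite
  q0 : Q
  c0 : Fin d → ℕ
  F : Set Q

/-- the transitions of `ρ` can be fired in turn from `q(v)`, and the last state is `q'` -/
def VASS.Run {Q σ : Type} {d : ℕ} (V : VASS Q σ d) : Q → (Fin d → ℤ) → List (Tr Q σ d) → Q → Prop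
  | q, _, [], q' => q = q'
  | q, v, t :: ρ, q' => t ∈ V.T ∧ t.1 = q ∧ 0 ≤ v + t.2.2.1 ∧ V.Run t.2.2.2 (v + t.2.2.1) ρ q'

def VASS.Acc {Q σ : Type} {d : ℕ} (V : VASS Q σ d) (w : List σ) : Set (List (Tr Q σ d)) :=
  {ρ | ρ.map (·.2.1) = w ∧ ∃ q ∈ V.F, V.Run V.q0 (fun i => V.c0 i) ρ q}

def VASS.L {Q σ : Type} {d : ℕ} (V : VASS Q σ d) : Set (List σ) := {w | (V.Acc w).Nonempty}

def AmbLang {σ : Type} (k : ℕ) (L : Set (List σ)) : Prop :=
  ∃ (Q : Type) (_ : Finite Q) (d : ℕ) (V : VASS Q σ d), (∀ w, (V.Acc w).encard ≤ k) ∧ V.L = L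

section
variable {Q σ : Type} {d : ℕ} {V : VASS Q σ d}

inductive E : (Fin d → ℤ) → List (Tr Q σ d) → (Fin d → ℤ) → List (Tr Q σ d) → Prop
  | nil {v u} : v ≤ u → E v [] u []
  | cons {v u t ρ ρ'} : v ≤ u → E (v + t.2.2.1) ρ (u + t.2.2.1) ρ' → E v (t :: ρ) u (t :: ρ')
  | skip {v u t ρ ρ'} : E v ρ (u + t.2.2.1) ρ' → E v ρ u (t :: ρ')

theorem E.refl {ρ : List (Tr Q σ d)} : ∀ {v u}, v ≤ u → E v ρ u ρ := by
  induction ρ with
  | nil => exact .nil
  | cons t ρ ih => exact fun h => .cons h (ih (add_le_add_left h _))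

theorem E.trans {v u w} {a b c : List (Tr Q σ d)} (h : E v a u b) (h' : E u b w c) : E v a w c := by
  induction h' generalizing v a with
  | nil k => cases h with | nil k' => exact .nil (k'.trans k)
  | cons k _ ih =>
    cases h with
    | cons k' h => exact .cons (k'.trans k) (ih h)
    | skip h => exact .skip (ih h)
  | skip _ ih => exact .skip (ih h)

theorem E.shift {v u} {a b : List (Tr Q σ d)} (h : E v a u b) (D) : E (v + D) a (u + D) b := by
  induction h with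
  | nil k => exact .nil (add_le_add_left k _)
  | cons k _ ih => exact .cons (add_le_add_left k _) (by rwa [add_right_comm, add_right_comm _ D])
  | skip _ ih => exact .skip (by rwa [add_right_comm])

theorem E.sub {v u} {a b : List (Tr Q σ d)} (h : E v a u b) : a <+ b := by
  induction h with
  | nil => rfl
  | cons _ _ ih => exact ih.cons_cons _
  | skip _ ih => exact ih.cons _

theorem VASS.Run.mono {ρ q'} : ∀ {q v u}, V.Run q v ρ q' → v ≤ u → V.Run q u ρ q' := by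
  induction ρ with
  | nil => exact fun h _ => h
  | cons t ρ ih =>
    exact fun h k => ⟨h.1, h.2.1, h.2.2.1.trans (add_le_add_left k _), ih h.2.2.2 (add_le_add_left k _)⟩

theorem VASS.Run.det {ρ q₁ q₂} : ∀ {q v}, V.Run q v ρ q₁ → V.Run q v ρ q₂ → q₁ = q₂ := by
  induction ρ with
  | nil => exact fun h k => h.symm.trans k
  | cons t ρ ih => exact fun h k => ih h.2.2.2 k.2.2.2

theorem VASS.Run.split {a b q'} : ∀ {q v}, V.Run q v (a ++ b) q' → ∃ p, V.Run q v a p ∧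
    ∀ a' u q₁, E v a u a' → V.Run q₁ u a' p → V.Run q₁ u (a' ++ b) q' ∧ E v (a ++ b) u (a' ++ b) := by
  have : ∀ {v a u a'}, E v a u a' → ∀ {q p q₁}, V.Run q v (a ++ b) q' → V.Run q v a p →
      V.Run q₁ u a' p → V.Run q₁ u (a' ++ b) q' ∧ E v (a ++ b) u (a' ++ b) := fun h => by
    induction h with
    | nil k => rintro _ _ _ h rfl rfl; exact ⟨h.mono k, .refl k⟩
    | cons k _ ih =>
      exact fun a b c => (ih a.2.2.2 b.2.2.2 c.2.2.2).imp (fun e => ⟨c.1, c.2.1, c.2.2.1, e⟩) (.cons k)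
    | skip _ ih => exact fun a b c => (ih a b c.2.2.2).imp (fun e => ⟨c.1, c.2.1, c.2.2.1, e⟩) .skip
  have k : ∀ {q v}, V.Run q v (a ++ b) q' → ∃ p, V.Run q v a p := by
    induction a with
    | nil => exact fun _ => ⟨_, rfl⟩
    | cons t a ih => exact fun h => (ih h.2.2.2).imp fun _ k => ⟨h.1, h.2.1, h.2.2.1, k⟩
  exact fun {_ _} h => (k h).imp fun p k => ⟨k, fun _ _ _ e => this e h k⟩

theorem amal {v u₁} {a b : List (Tr Q σ d)} (h : E v a u₁ b) {f} : ∀ {q q₁ u₂ c}, E v a u₂ c → v ≤ u₂ →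
    V.Run q v a f → V.Run q₁ u₁ b f → V.Run q u₂ c f → ∃ e, V.Run q₁ (u₁ + (u₂ - v)) e f ∧
      E u₁ b (u₁ + (u₂ - v)) e ∧ (e : Multiset (Tr Q σ d)) + a = b + c := by
  induction h with
  | @nil v u₁ k =>
    rintro _ _ u₂ c h _ rfl rfl h'
    exact ⟨c, h'.mono (by rw [add_sub_left_comm]; exact le_add_of_nonneg_right (sub_nonneg.2 k)), by simpa [add_sub_left_comm] using h.shift (u₁ - v), by simp⟩
  | @skip v u₁ t a b _ ih =>
    intro q q₁ u₂ c h k h1 h2 h3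
    obtain ⟨e, e1, e2, e3⟩ := ih h k h1 h2.2.2.2 h3
    rw [add_right_comm] at e1 e2
    exact ⟨t :: e, ⟨h2.1, h2.2.1, add_right_comm u₁ _ _ ▸ add_nonneg h2.2.2.1 (sub_nonneg.2 k), e1⟩,
      .cons (le_add_of_nonneg_right (sub_nonneg.2 k)) e2, by
      simp only [← Multiset.cons_coe, Multiset.cons_add, e3]⟩
  | @cons v u₁ t a b k _ ih =>
    rintro _ _ u₂ c h - ⟨h0, rfl, h1⟩ ⟨-, rfl, h2⟩ h3
    generalize t.1 = q at h3 ⊢
    induction c generalizing q u₂ with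
    | nil => cases h
    | cons s c ih' =>
      cases h with
      | cons k' h =>
        obtain ⟨e, e1, e2, e3⟩ := ih h (add_le_add_left k' _) h1.2 h2.2 h3.2.2.2
        rw [add_sub_add_right_eq_sub, add_right_comm] at e1 e2
        exact ⟨t :: e, ⟨h0, h3.2.1, add_right_comm u₁ _ _ ▸ add_nonneg h2.1 (sub_nonneg.2 k'), e1⟩,
          .cons (le_add_of_nonneg_right (sub_nonneg.2 k')) e2, by
          simp only [← Multiset.cons_coe, Multiset.cons_add, Multiset.add_cons, e3]⟩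
      | skip h =>
        obtain ⟨e, e1, e2, e3⟩ := ih' h _ h3.2.2.2
        rw [add_sub_right_comm, ← add_assoc] at e1 e2
        exact ⟨s :: e, ⟨h3.1, h3.2.1, by
          rw [add_sub_left_comm, add_right_comm]; exact add_nonneg h3.2.2.1 (sub_nonneg.2 k), e1⟩, .skip e2, by
          rw [← Multiset.cons_coe s, ← Multiset.cons_coe s, Multiset.cons_add, e3, Multiset.add_cons]⟩

def ann : (Fin d → ℤ) → List (Tr Q σ d) → List (Option (Tr Q σ d) × (Fin d → ℤ))
  | v, [] => [(none, v)]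
  | v, t :: ρ => (some t, v) :: ann (v + t.2.2.1) ρ

theorem wqo [Finite Q] {v} (hv : 0 ≤ v) {q} (ρ : ℕ → List (Tr Q σ d)) (f : ℕ → Q)
    (h : ∀ i, V.Run q v (ρ i) (f i)) : ∃ g : ℕ ↪o ℕ, ∀ i, f (g 0) = f (g i) ∧ E v (ρ (g 0)) v (ρ (g i)) := by
  let r := fun x y : Option (Tr Q σ d) × (Fin d → ℤ) => x.1 = y.1 ∧ x.2 ≤ y.2
  have : IsPreorder _ r := { refl := fun _ => ⟨rfl, le_rfl⟩
                             trans := fun _ _ _ a b => ⟨a.1.trans b.1, a.2.trans b.2⟩ }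
  have m : {v : Fin d → ℤ | 0 ≤ v}.PartiallyWellOrderedOn (· ≤ ·) := fun f =>
    (wellQuasiOrdered_le (α := Fin d → ℕ) fun n a => ((f n).1 a).toNat).imp fun i => Exists.imp fun j =>
      And.imp_right fun h a => by
        have := h a; have := (f i).2 a; have := (f j).2 a; simp only [Pi.zero_apply] at *; omega
  have k1 : ∀ ρ v q f, 0 ≤ v → V.Run q v ρ f →
      ∀ x ∈ ann v ρ, x ∈ insert none (some '' V.T) ×ˢ {v : Fin d → ℤ | 0 ≤ v} := fun ρ => by
    induction ρ with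
    | nil => simp +contextual [ann]
    | cons t ρ ih =>
      exact fun v q f a b => forall_mem_cons.2 ⟨⟨.inr ⟨t, b.1, rfl⟩, a⟩, ih _ _ _ b.2.2.1 b.2.2.2⟩
  have k2 : ∀ (b a : List (Tr Q σ d)) v u, SublistForall₂ r (ann v a) (ann u b) → E v a u b := fun b => by
    induction b with
    | nil =>
      rintro (_ | ⟨t, a⟩) v u (_ | ⟨h, -⟩ | h)
      · exact .nil h.2
      · cases h
      · cases h.1
      · cases h
    | cons s b ih =>
      rintro (_ | ⟨t, a⟩) v u (_ | ⟨h, h'⟩ | h)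
      · cases h.1
      · exact .skip (ih [] _ _ h)
      · cases h.1; exact .cons h.2 (ih _ _ _ h')
      · exact .skip (ih (t :: a) _ _ h)
  let s := fun x y : Q × List (Option (Tr Q σ d) × (Fin d → ℤ)) => x.1 = y.1 ∧ SublistForall₂ r x.2 y.2
  have : IsPreorder _ s := { refl := fun _ => ⟨rfl, refl_of _ _⟩
                             trans := fun _ _ _ a b => ⟨a.1.trans b.1, trans_of _ a.2 b.2⟩ }
  obtain ⟨g, hg⟩ := Set.PartiallyWellOrderedOn.exists_monotone_subseq (r := s)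
    ((Set.finite_univ.partiallyWellOrderedOn (r := Eq)).prod (((((V.fin.image some).insert
      none).partiallyWellOrderedOn (r := Eq)).prod m).partiallyWellOrderedOn_sublistForall₂ r))
      (f := fun i => (f i, ann v (ρ i))) fun i => ⟨trivial, k1 _ _ _ _ hv (h i)⟩
  exact ⟨g, fun i => (hg 0 i i.zero_le).imp_right (k2 _ _ _ _)⟩
end

theorem common {N : ℕ} {J : Type} [Fintype J] (U : J → Set (Fin N → ℕ))
    (h1 : ∀ j c, ∃ p : Fin N → ℕ, 0 < p c ∧ (∀ c' > c, p c' = 0) ∧ ∀ x ∈ U j, x + p ∈ U j)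
    (h2 : ∀ j, ∀ Z > 0, ∃ x ∈ U j, ∀ c, Z ∣ x c) : ∃ x, ∀ j, x ∈ U j := by
  choose p p1 p2 p3 using h1
  have : ∀ r ≤ N, ∀ Z : ℕ, Z > 0 → ∃ x : J → Fin N → ℕ, ∃ y : Fin N → ℕ, ∀ j, x j ∈ U j ∧ (∀ c, Z ∣ x j c) ∧
      ∀ c : Fin N, r ≤ c → x j c = y c := fun r h => by
    induction h using Nat.decreasingInduction with
    | self =>
      intro Z h
      choose x a b using fun j => h2 j Z h
      exact ⟨x, 0, fun j => ⟨a j, b j, fun c h => by omega⟩⟩
    | of_succ r h ih =>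
      intro Z z
      obtain ⟨x, y, a⟩ := ih (Z * ∏ j, p j ⟨r, h⟩ ⟨r, h⟩) (mul_pos z (Finset.prod_pos fun j _ => p1 j _))
      have : ∀ j, ∃ k, ∑ i, x i ⟨r, h⟩ = x j ⟨r, h⟩ + Z * k * p j ⟨r, h⟩ ⟨r, h⟩ := fun j => by
        obtain ⟨k, e⟩ := (mul_dvd_mul_left Z (Finset.dvd_prod_of_mem _ (Finset.mem_univ j))).trans
          (Nat.dvd_sub (Finset.dvd_sum (s := Finset.univ) fun i _ => (a i).2.1 ⟨r, h⟩) ((a j).2.1 ⟨r, h⟩))
        have := Finset.single_le_sum (f := fun i => x i ⟨r, h⟩) (fun _ _ => Nat.zero_le _) (Finset.mem_univ j)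
        exact ⟨k, by rw [mul_right_comm]; omega⟩
      choose k e using this
      refine ⟨fun j => x j + (Z * k j) • p j ⟨r, h⟩, Function.update y ⟨r, h⟩ (∑ i, x i ⟨r, h⟩), fun j =>
        ⟨?_, fun c => dvd_add ((dvd_mul_right _ _).trans ((a j).2.1 c)) (by simp [mul_assoc]), fun c l => ?_⟩⟩
      · beta_reduce
        induction Z * k j with
        | zero => simpa using (a j).1
        | succ n ih => rw [succ_nsmul, ← add_assoc]; exact p3 _ _ _ ih
      · obtain rfl | l' := eq_or_ne c ⟨r, h⟩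
        · simp [e j]
        · have : r < c := l.lt_of_ne fun q => l' (Fin.ext q.symm)
          simp [l', p2 j ⟨r, h⟩ c this, (a j).2.2 c this]
  obtain ⟨x, y, a⟩ := this 0 N.zero_le 1 one_pos
  exact ⟨y, fun j => funext (fun c => (a j).2.2 c c.1.zero_le) ▸ (a j).1⟩

section
variable {Q : Type} {N d : ℕ} (V : VASS Q (Fin N) d)

abbrev wd (ρ : List (Tr Q (Fin N) d)) : List (Fin N) := ρ.map (·.2.1)
abbrev R (ρ : List (Tr Q (Fin N) d)) (q : Q) : Prop := V.Run V.q0 (fun i => V.c0 i) ρ q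
abbrev Le (ρ ρ' : List (Tr Q (Fin N) d)) : Prop := E (fun i => V.c0 i) ρ (fun i => V.c0 i) ρ'
def Pu (ρ : List (Tr Q (Fin N) d)) (q : Q) (p : Fin N → ℕ) : Prop :=
  ∀ e, R V e q → Le V ρ e → ∃ e', R V e' q ∧ Le V e e' ∧ ∀ c, (wd e').count c = (wd e).count c + p c

theorem base [Finite Q] (S : Set (Fin N)) (nn : Fin N → Fin N) (hn : ∀ c ∈ S, nn c < c)
    (hL : ∀ u : List (Fin N), u.Pairwise (· ≤ ·) → (∀ c ∈ S, u.count c ≤ u.count (nn c)) → u ∈ V.L) :
    ∃ ρ, ∃ q ∈ V.F, (∀ c, ∃ p : Fin N → ℕ, 0 < p c ∧ (∀ c' > c, p c' = 0) ∧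
      (c ∉ S → ∀ c' ≠ c, p c' = 0) ∧ Pu V ρ q p) ∧
      ∀ Z > 0, ∃ e, R V e q ∧ Le V ρ e ∧ ∀ c, Z ∣ (wd e).count c := by
  classical
  have h0 : (0 : Fin d → ℤ) ≤ fun i => (V.c0 i : ℤ) := fun _ => Int.natCast_nonneg _
  have G : ∀ u : ℕ → List (Fin N), ∃ t, ∀ π q, R V π q → wd π = u t →
      ∃ t' > t, ∃ π', R V π' q ∧ wd π' = u t' ∧ Le V π π' := fun u => by
    by_contra! h
    choose π q a b c using h
    obtain ⟨g, hg⟩ := wqo h0 π q a
    exact c _ _ (g.strictMono one_pos) _ ((hg 1).1 ▸ a _) (b _) (hg 1).2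
  let Good := fun u c => ∀ π q, R V π q → wd π = u → ∃ π', R V π' q ∧ Le V π π' ∧
    u.count c < (wd π').count c ∧ (∀ c' > c, c' ∉ wd π') ∧
      (c ∉ S → ∀ c' ≠ c, (wd π').count c' = u.count c')
  have W : ∀ r ≤ N, ∀ y, ∃ u : List (Fin N), u.Pairwise (· ≤ ·) ∧ (∀ c ∈ u, c.1 < r) ∧
      (∀ c, y ∣ u.count c) ∧ (∀ c ∈ S, u.count c ≤ u.count (nn c)) ∧ ∀ c, c.1 < r →
        y ≤ u.count c ∧ (0 < y → ∃ u₁ u₂, u = u₁ ++ u₂ ∧ Good u₁ c) := fun r => by
    induction r with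
    | zero => exact fun _ y => ⟨[], by simp⟩
    | succ r ih =>
      intro h y
      choose W w1 w2 w3 w4 w5 using ih (by omega)
      let c : Fin N := ⟨r, h⟩
      let f := fun t => if c ∈ S then y * (t + 1) else y
      have f1 : ∀ t, y ∣ f t ∧ y ≤ f t ∧ (0 < y → 0 < f t) := fun t => by
        simp only [f]; split_ifs <;> simp +contextual [mul_add]
      have n : ∀ z, (W z).count c = 0 := fun z => count_eq_zero.2 fun q => (w2 z c q).false
      obtain ⟨t, ht⟩ := G fun t => W (f t) ++ replicate (y * (t + 1)) c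
      refine ⟨W (f t) ++ replicate (y * (t + 1)) c, pairwise_append.2 ⟨w1 _, by simp, fun a q b q' =>
        eq_of_mem_replicate q' ▸ (w2 _ a q).le⟩, fun a q => (mem_append.1 q).elim
          (fun q => (w2 _ a q).trans r.lt_succ_self) fun q => eq_of_mem_replicate q ▸ r.lt_succ_self,
        fun a => ?_, fun a q => ?_, fun a q => ?_⟩
      · rw [count_append, count_replicate]
        exact dvd_add ((f1 t).1.trans (w3 _ _)) (by split_ifs <;> simp)
      · obtain rfl | l := eq_or_ne a c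
        · have := (w5 (f t) (nn c) (hn c q)).1
          simp only [f, if_pos q] at this ⊢
          simp [n]; omega
        · have := w4 (f t) a q
          simp [count_replicate, l.symm]; omega
      · obtain l | l := (Nat.lt_succ_iff.1 q).lt_or_eq
        · refine ⟨by have := (w5 (f t) a l).1; have := (f1 t).2.1; simp; omega, fun z => ?_⟩
          obtain ⟨u₁, u₂, e, g⟩ := (w5 (f t) a l).2 ((f1 t).2.2 z)
          exact ⟨u₁, u₂ ++ _, by rw [e, append_assoc], g⟩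
        · obtain rfl : a = c := Fin.ext l
          refine ⟨by simp [mul_add, n], fun z => ⟨_, [], (append_nil _).symm, fun π q a b => ?_⟩⟩
          obtain ⟨t', l, π', a', b', e⟩ := ht π q a b
          refine ⟨π', a', e, by simpa [b', n, z] using l, fun c' l q => ?_, fun q c' l => by
            simp [b', f, q, count_replicate, l.symm]⟩
          exact (mem_append.1 (b' ▸ q)).elim (fun q => (w2 _ _ q).not_gt l)
            fun q => l.ne' (eq_of_mem_replicate q)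
  choose W w1 w2 w3 w4 w5 using W N le_rfl
  choose ρ a q b c using fun t : ℕ => hL _ (w1 t.factorial) (w4 _)
  obtain ⟨g, hg⟩ := wqo h0 ρ q c
  refine ⟨_, _, b (g 0), fun x => ?_, fun Z z => ⟨_, (hg Z).1 ▸ c _, (hg Z).2, fun x =>
    (Nat.dvd_factorial z (g.strictMono.id_le Z)).trans (by rw [wd, a]; exact w3 _ _)⟩⟩
  obtain ⟨u₁, u₂, e, k⟩ := (w5 _ x x.2).2 (g 0).factorial_pos
  obtain ⟨π, τ, e', rfl, rfl⟩ := map_eq_append_iff.1 ((a _).trans e)
  have c' := c (g 0)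
  rw [e'] at c' ⊢
  obtain ⟨s, s1, s2⟩ := c'.split
  obtain ⟨π', k1, k2, k3, k4, k5⟩ := k π s s1 rfl
  obtain ⟨s3, s4⟩ := s2 _ _ _ k2 k1
  refine ⟨fun c => (wd π').count c - (wd π).count c, Nat.sub_pos_of_lt k3, fun c l => by
    simp [count_eq_zero.2 (k4 c l)], fun l c l' => by simp [k5 l c l'], fun e e1 e2 => ?_⟩
  obtain ⟨e', e3, e4, e5⟩ := amal e2 s4 le_rfl c' e1 s3
  rw [sub_self, add_zero] at e3 e4
  refine ⟨e', e3, e4, fun c => ?_⟩
  have := congrArg (fun m => Multiset.count c (m.map (·.2.1))) e5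
  have := (k2.sub.map (·.2.1)).count_le c
  simp only [Multiset.map_add, Multiset.map_coe, Multiset.count_add, Multiset.coe_count, map_append,
    count_append, wd] at *
  omega
end

section
variable {K : ℕ} {ι : Type} (e : ι → Fin K)

def ef (i : ι) (c : Fin (K + K)) : Fin 1 → ℤ := fun _ =>
  if c = (e i).castAdd K then 1 else if c = (e i).natAdd K then -1 else 0

def VI [Finite ι] : VASS (Option (ι × Fin (K + K))) (Fin (K + K)) 1 where
  T := {t | ∃ s i c, (∀ x ∈ s, x.1 = i ∧ x.2 ≤ c) ∧ t = (s, c, ef e i c, some (i, c))}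
  fin := (Set.finite_range fun x : _ × ι × _ => (x.1, x.2.2, ef e x.2.1 x.2.2, some x.2)).subset
    fun _ ⟨s, i, c, _, h⟩ => ⟨(s, i, c), h.symm⟩
  q0 := none
  c0 := 0
  F := Set.univ

def can (i : ι) : Option (ι × Fin (K + K)) → List (Fin (K + K)) → 
    List (Tr (Option (ι × Fin (K + K))) (Fin (K + K)) 1)
  | _, [] => []
  | s, c :: w => (s, c, ef e i c, some (i, c)) :: can i (some (i, c)) w

variable [Finite ι]

theorem VI_run [Nonempty ι] {ρ q} : ∀ {s v}, (VI e).Run s v ρ q → 0 ≤ v → ∃ i, (∀ x ∈ s, x.1 = i ∧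
    ∀ c ∈ wd ρ, x.2 ≤ c) ∧ ρ = can e i s (wd ρ) ∧ (wd ρ).Pairwise (· ≤ ·) ∧
      (wd ρ).count ((e i).natAdd K) ≤ v 0 + (wd ρ).count ((e i).castAdd K) := by
  induction ρ with
  | nil =>
    rintro (_ | ⟨i, c⟩) v - h
    exacts [⟨Classical.arbitrary _, by simpa [can] using h 0⟩, ⟨i, by simpa [can] using h 0⟩]
  | cons t ρ ih =>
    rintro _ v ⟨⟨s, i, c, a, rfl⟩, rfl, b, h⟩ -
    obtain ⟨j, k1, k2, k3, k4⟩ := ih h b
    obtain ⟨rfl, k0⟩ := k1 _ rfl
    refine ⟨i, fun x q => ⟨(a x q).1, forall_mem_cons.2 ⟨(a x q).2, fun c l => (a x q).2.trans (k0 c l)⟩⟩,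
      congrArg _ k2, pairwise_cons.2 ⟨k0, k3⟩, ?_⟩
    have := (e i).2
    simp only [Pi.add_apply, ef, wd, map_cons, count_cons, beq_iff_eq, Fin.ext_iff, Fin.val_castAdd,
      Fin.val_natAdd] at k4 ⊢
    split_ifs at k4 ⊢ <;> omega

theorem VI_mem (i : ι) {w : List (Fin (K + K))} (h : w.Pairwise (· ≤ ·))
    (h' : w.count ((e i).natAdd K) ≤ w.count ((e i).castAdd K)) : w ∈ (VI e).L := by
  have : ∀ s (v : Fin 1 → ℤ), 0 ≤ v 0 → (∀ x ∈ s, x.1 = i ∧ ∀ c ∈ w, x.2 ≤ c) →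
      w.count ((e i).natAdd K) ≤ v 0 + w.count ((e i).castAdd K) →
      wd (can e i s w) = w ∧ ∃ q, (VI e).Run s v (can e i s w) q := by
    clear h'
    induction w with
    | nil => exact fun s _ _ _ _ => ⟨rfl, s, rfl⟩
    | cons c w ih =>
      intro s v a b k
      obtain ⟨h1, h2⟩ := pairwise_cons.1 h
      have := (e i).2
      have z : c = (e i).natAdd K → w.count ((e i).castAdd K) = 0 := fun q =>
        count_eq_zero.2 fun l => by have := h1 _ l; simp [q, Fin.le_def] at this; omega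
      have k' : 0 ≤ (v + ef e i c) 0 ∧
          w.count ((e i).natAdd K) ≤ (v + ef e i c) 0 + w.count ((e i).castAdd K) := by
        simp only [Pi.add_apply, ef, count_cons, beq_iff_eq, Fin.ext_iff, Fin.val_castAdd,
          Fin.val_natAdd] at k z ⊢
        split_ifs at k ⊢ <;> omega
      obtain ⟨q1, q, q2⟩ := ih h2 (some (i, c)) _ k'.1 (by simpa using h1) k'.2
      exact ⟨congrArg _ q1, q, ⟨s, i, c, fun x l => ⟨(b x l).1, (b x l).2 c (by simp)⟩, rfl⟩, rfl,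
        Fin.forall_fin_one.2 k'.1, q2⟩
  obtain ⟨a, q, b⟩ := this none 0 le_rfl (by simp) (by simpa using h')
  exact ⟨_, a, q, trivial, b⟩

theorem VI_amb [Nonempty ι] : AmbLang (Nat.card ι) (VI e).L :=
  ⟨_, inferInstance, 1, VI e, fun w => (Set.encard_le_encard (t := (fun i => can e i none w) '' Set.univ)
    (by
      rintro ρ ⟨rfl, q, _, b⟩
      exact (VI_run e b le_rfl).imp fun i h => ⟨trivial, h.2.1.symm⟩)).trans
      ((Set.encard_image_le _ _).trans (by simp [Set.encard_univ, ENat.card_eq_coe_natCard])), rfl⟩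

theorem kill [Nonempty ι] {Q : Type} {d : ℕ} {V : VASS Q (Fin (K + K)) d} (hV : V.L ⊆ (VI e).L) {σ q}
    (hq : q ∈ V.F) (h : R V σ q) (hp : ∀ i, ∃ ρ, Le V ρ σ ∧ ∃ p : Fin (K + K) → ℕ,
      0 < p ((e i).natAdd K) ∧ (∀ c ≠ (e i).natAdd K, p c = 0) ∧ Pu V ρ q p) : False := by
  classical
  have : ∀ I : Finset ι, ∃ τ, R V τ q ∧ Le V σ τ ∧ ∀ i ∈ I,
      (wd τ).count ((e i).castAdd K) < (wd τ).count ((e i).natAdd K) := fun I => by
    induction I using Finset.induction with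
    | empty => exact ⟨σ, h, .refl le_rfl, by simp⟩
    | insert i I _ ih =>
      obtain ⟨τ, a, b, c⟩ := ih
      obtain ⟨ρ, k, p, p1, p2, p3⟩ := hp i
      have : ∀ n, ∃ τ', R V τ' q ∧ Le V σ τ' ∧ ∀ c, (wd τ').count c = (wd τ).count c + n * p c :=
        fun n => by
          induction n with
          | zero => exact ⟨τ, a, b, by simp⟩
          | succ n ih =>
            obtain ⟨τ', a, b, c⟩ := ih
            obtain ⟨τ'', a', b', c'⟩ := p3 τ' a (k.trans b)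
            exact ⟨τ'', a', b.trans b', fun x => by rw [c', c, add_mul, one_mul, add_assoc]⟩
      obtain ⟨τ', a', b', c'⟩ := this ((wd τ).count ((e i).castAdd K) + 1)
      refine ⟨τ', a', b', fun j l => ?_⟩
      rw [c', c', p2 _ (by simp [Fin.ext_iff]; omega), mul_zero, add_zero]
      obtain rfl | l := Finset.mem_insert.1 l
      exacts [by nlinarith, (c j l).trans_le le_self_add]
  obtain ⟨_⟩ := nonempty_fintype ι
  obtain ⟨τ, a, -, b⟩ := this Finset.univ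
  obtain ⟨τ', c, _, -, k⟩ := hV ⟨τ, rfl, q, hq, a⟩
  obtain ⟨i, -, -, -, k⟩ := VI_run e k le_rfl
  have := b i (Finset.mem_univ i)
  simp only [wd, c, VI, Pi.zero_apply] at k this
  omega
end

theorem result (k₁ k₂ : ℕ) (h₁ : 0 < k₁) (h₂ : 0 < k₂) : ∃ (σ : Type) (_ : Finite σ)
    (L₁ L₂ : Set (List σ)), AmbLang k₁ L₁ ∧ AmbLang k₂ L₂ ∧
      ∀ n, 1 ≤ n → n ≤ k₁ * k₂ - 1 → ¬ AmbLang n (L₁ ∩ L₂) := by
  have := Fin.pos_iff_nonempty.1 h₁
  have := Fin.pos_iff_nonempty.1 h₂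
  refine ⟨_, inferInstance, _, _, by simpa using VI_amb (Fin.castAdd k₂ : Fin k₁ → _),
    by simpa using VI_amb (Fin.natAdd k₁ : Fin k₂ → _), ?_⟩
  rintro n n1 n2 ⟨Q, _, d, V, a, hV⟩
  choose ρ q b1 b2 b3 using fun j : Fin k₁ × Fin k₂ => base V
    {(j.1.castAdd k₂).natAdd _, (j.2.natAdd k₁).natAdd _} (fun c => ⟨c - (k₁ + k₂), by omega⟩)
    (by simp [Fin.lt_def]; omega) fun u u1 u2 => hV.ge
      ⟨VI_mem _ j.1 u1 ((u2 _ (.inl rfl)).trans_eq (congrArg u.count (by simp [Fin.ext_iff]))),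
        VI_mem _ j.2 u1 ((u2 _ (.inr rfl)).trans_eq (congrArg u.count (by simp [Fin.ext_iff])))⟩
  obtain ⟨x, hx⟩ := common (fun j => {x | ∃ e, R V e (q j) ∧ Le V (ρ j) e ∧ ∀ c, (wd e).count c = x c})
    (fun j c => (b2 j c).imp fun p h => ⟨h.1, h.2.1, fun x ⟨e, e1, e2, e3⟩ =>
      (h.2.2.2 e e1 e2).imp fun _ k => ⟨k.1, e2.trans k.2.1, fun c => by simp [k.2.2, e3]⟩⟩)
    fun j Z z => let ⟨e, k⟩ := b3 j Z z; ⟨_, ⟨e, k.1, k.2.1, fun _ => rfl⟩, k.2.2⟩
  choose σ s1 s2 s3 using hx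
  have so : ∀ j, (wd (σ j)).Pairwise (· ≤ ·) := fun j => by
    obtain ⟨τ, c, _, -, k⟩ := (hV.le ⟨σ j, rfl, _, b1 j, s1 j⟩).1
    exact Eq.subst c (VI_run _ k le_rfl).choose_spec.2.2.1
  have inj : Function.Injective σ := fun j j' e => by
    have eq : q j' = q j := (s1 j').det (e ▸ s1 j)
    have pu : ∀ c, c ∉ ({(j.1.castAdd k₂).natAdd _, (j.2.natAdd k₁).natAdd _} : Set _) ∨
        c ∉ ({(j'.1.castAdd k₂).natAdd _, (j'.2.natAdd k₁).natAdd _} : Set _) → ∃ ρ, Le V ρ (σ j) ∧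
        ∃ p : Fin _ → ℕ, 0 < p c ∧ (∀ c' ≠ c, p c' = 0) ∧ Pu V ρ (q j) p := fun c h => h.elim
      (fun h => ⟨_, s2 j, (b2 j c).imp fun _ k => ⟨k.1, k.2.2.1 h, k.2.2.2⟩⟩)
      fun h => ⟨_, e ▸ s2 j', (b2 j' c).imp fun _ k => ⟨k.1, k.2.2.1 h, eq ▸ k.2.2.2⟩⟩
    refine Prod.ext (by_contra fun l => kill _ (hV.le.trans Set.inter_subset_left) (b1 j) (s1 j)
      fun i => pu _ ?_) (by_contra fun l => kill _ (hV.le.trans Set.inter_subset_right) (b1 j) (s1 j)
        fun i => pu _ ?_) <;> simp [Fin.ext_iff] at l ⊢ <;> omega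
  have j : Fin k₁ × Fin k₂ := Classical.arbitrary _
  have := (Set.encard_le_encard (s := σ '' Set.univ) (by
    rintro _ ⟨i, -, rfl⟩
    exact ⟨(perm_iff_count.2 fun c => (s3 i c).trans (s3 j c).symm).eq_of_pairwise
      (fun _ _ _ _ => le_antisymm) (so i) (so j), _, b1 i, s1 i⟩)).trans (a (wd (σ j)))
  simp only [inj.encard_image, Set.encard_univ, ENat.card_eq_coe_fintype_card, Fintype.card_prod,
    Fintype.card_fin, Nat.cast_le] at this
  have := Nat.mul_pos h₁ h₂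
  omega

end Pool.Agent.Results.MP_bb7684_lc.Tight
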